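import Mathlib

set_option autoImplicit false

/-!
# Combinatorial core for MP_f9129e_co

* `Has r V K`: there is a symmetric colouring of the pairs of `V` by `K` such that the union of any at
  most `r` colour classes is `(r+1)`-colourable.
* `exists_digraph`: finite digraphs without closed walks of length `1, ..., s` in which every set of at
  most `M` vertices has a common out-neighbour.
* `step`: the induction step.
-/

namespace Pool.Agent.Lib.MP_f9129e_co

open Finset

/-- There is a symmetric colouring of pairs of elements of `V` with colours in `K` for which the union of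
any at most `r` colour classes has a proper colouring with `r + 1` colours. -/
def Has (r : ℕ) (V K : Type) : Prop :=
  ∃ c : V → V → K, (∀ x y, c x y = c y x) ∧
    ∀ S : Finset K, S.card ≤ r →
      ∃ f : V → Fin (r + 1), ∀ x y, x ≠ y → c x y ∈ S → f x ≠ f y

theorem Has.mono {r : ℕ} {V V' K K' : Type} (h : Has r V K) (e : V' ↪ V) (g : K ↪ K') :
    Has r V' K' := by
  classical
  obtain ⟨c, hs, hc⟩ := h
  refine ⟨fun x y => g (c (e x) (e y)), fun x y => by simp only [hs (e x) (e y)],
    fun S hS => ?_⟩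
  have hcard : (S.preimage g g.injective.injOn).card ≤ r := by
    refine le_trans ?_ hS
    rw [← Finset.card_map g]
    refine Finset.card_le_card ?_
    intro z hz
    simp only [Finset.mem_map, Finset.mem_preimage] at hz
    obtain ⟨a, ha, rfl⟩ := hz
    exact ha
  obtain ⟨f, hf⟩ := hc _ hcard
  refine ⟨fun x => f (e x), fun x y hxy hmem => ?_⟩
  refine hf _ _ (fun h => hxy (e.injective h)) ?_
  simpa [Finset.mem_preimage] using hmem

/-- Finite digraphs of large directed girth in which every small set has a common out-neighbour. -/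
theorem exists_digraph (M s : ℕ) :
    ∃ (ι : Type) (_ : Fintype ι) (_ : DecidableEq ι) (R : ι → ι → Prop) (X : Finset ι → ι),
      (∀ A : Finset ι, A.card ≤ M → ∀ b ∈ A, R b (X A)) ∧
      (∀ (w : ℕ → ι) (n : ℕ), 1 ≤ n → n ≤ s → (∀ i < n, R (w i) (w (i + 1))) → w 0 ≠ w n) := by
  classical
  set Q : ℕ := (∑ i : Fin s, M ^ ((i : ℕ) + 1)) + 1 with hQ
  let P : (Fin (s + 1) → Finset (Fin Q)) → Prop := fun H =>
    (H 0).Nonempty ∧ (∀ i, (H i).card ≤ M ^ (i : ℕ)) ∧ ∀ i : Fin s, Disjoint (H 0) (H i.succ)
  let ι : Type := {H : Fin (s + 1) → Finset (Fin Q) // P H}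
  let R : ι → ι → Prop := fun v w => ∀ i : Fin s, v.1 i.castSucc ⊆ w.1 i.succ
  have key : ∀ A : Finset ι, A.card ≤ M → ∃ w : ι, ∀ b ∈ A, R b w := by
    intro A hA
    let G : Fin s → Finset (Fin Q) := fun i => A.biUnion (fun v => v.1 i.castSucc)
    have hG : ∀ i : Fin s, (G i).card ≤ M ^ ((i : ℕ) + 1) := by
      intro i
      calc (G i).card ≤ ∑ v ∈ A, (v.1 i.castSucc).card := Finset.card_biUnion_le
        _ ≤ ∑ v ∈ A, M ^ (i : ℕ) := Finset.sum_le_sum (fun v _ => by
            have := v.2.2.1 i.castSucc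
            simpa using this)
        _ = A.card * M ^ (i : ℕ) := by simp
        _ ≤ M * M ^ (i : ℕ) := Nat.mul_le_mul_right _ hA
        _ = M ^ ((i : ℕ) + 1) := by ring
    have hU : (Finset.univ.biUnion G).card < Fintype.card (Fin Q) := by
      rw [Fintype.card_fin]
      calc (Finset.univ.biUnion G).card ≤ ∑ i : Fin s, (G i).card := Finset.card_biUnion_le
        _ ≤ ∑ i : Fin s, M ^ ((i : ℕ) + 1) := Finset.sum_le_sum (fun i _ => hG i)
        _ < Q := by rw [hQ]; exact Nat.lt_succ_self _
    obtain ⟨j, hj⟩ : ∃ j : Fin Q, j ∉ Finset.univ.biUnion G := by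
      by_contra hcon
      push Not at hcon
      have : Finset.univ.biUnion G = Finset.univ := Finset.eq_univ_of_forall hcon
      rw [this, Finset.card_univ] at hU
      exact lt_irrefl _ hU
    refine ⟨⟨Fin.cons {j} G, ?_, ?_, ?_⟩, ?_⟩
    · simp
    · intro i
      refine Fin.cases ?_ (fun i => ?_) i
      · simp
      · simpa using hG i
    · intro i
      simp only [Fin.cons_zero, Fin.cons_succ, Finset.disjoint_singleton_left]
      intro hji
      exact hj (Finset.mem_biUnion.2 ⟨i, Finset.mem_univ _, hji⟩)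
    · intro b hb i
      simp only [Fin.cons_succ]
      exact Finset.subset_biUnion_of_mem (fun v : ι => v.1 i.castSucc) hb
  obtain ⟨w0, -⟩ := key ∅ (by simp)
  have key' : ∀ A : Finset ι, ∃ w : ι, A.card ≤ M → ∀ b ∈ A, R b w := by
    intro A
    by_cases hA : A.card ≤ M
    · obtain ⟨w, hw⟩ := key A hA
      exact ⟨w, fun _ => hw⟩
    · exact ⟨w0, fun h => absurd h hA⟩
  choose X hX using key'
  refine ⟨ι, inferInstance, inferInstance, R, X, hX, ?_⟩
  intro w n hn1 hns hw heq
  have hsub : ∀ i : ℕ, ∀ hi : i ≤ n, (w 0).1 0 ⊆ (w i).1 ⟨i, by omega⟩ := by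
    intro i
    induction i with
    | zero => intro _; exact Finset.Subset.refl _
    | succ i ih =>
      intro hi
      refine (ih (by omega)).trans ?_
      exact hw i (by omega) ⟨i, by omega⟩
  have h1 := hsub n le_rfl
  rw [← heq] at h1
  obtain ⟨z, hz⟩ := (w 0).2.1
  obtain ⟨m, rfl⟩ : ∃ m, n = m + 1 := ⟨n - 1, by omega⟩
  have hd := (w 0).2.2.2 ⟨m, by omega⟩
  exact (Finset.disjoint_left.1 hd hz) (h1 hz)

end Pool.Agent.Lib.MP_f9129e_co
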