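import Mathlib
import Pool.Agent.Lib.MP_f9129e_co.Digraph

set_option autoImplicit false

namespace Pool.Agent.Lib.MP_f9129e_co

open Finset

/-- Reed-Solomon code: evaluation of polynomials of degree at most `M`. -/
theorem exists_code (M : ℕ) (ι : Type) [Fintype ι] [DecidableEq ι] (p : ℕ) [Fact p.Prime]
    (hp : Fintype.card ι ≤ p) :
    ∃ ev : (Fin (M + 1) → ZMod p) → ι → ZMod p,
      ∀ x y, x ≠ y → (univ.filter (fun l => ev x l = ev y l)).card ≤ M := by
  classical
  obtain ⟨t⟩ : Nonempty (ι ↪ ZMod p) := by
    rw [Function.Embedding.nonempty_iff_card_le, ZMod.card]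
    exact hp
  refine ⟨fun x l => ∑ i : Fin (M + 1), x i * t l ^ (i : ℕ), fun x y hxy => ?_⟩
  let P : Polynomial (ZMod p) :=
    ∑ i : Fin (M + 1), Polynomial.C (x i - y i) * Polynomial.X ^ (i : ℕ)
  have hcoef : ∀ i : Fin (M + 1), P.coeff (i : ℕ) = x i - y i := by
    intro i
    simp only [P, Polynomial.finsetSum_coeff, Polynomial.coeff_C_mul, Polynomial.coeff_X_pow]
    rw [Finset.sum_eq_single i]
    · simp
    · intro j _ hj
      have : (i : ℕ) ≠ (j : ℕ) := fun h => hj (Fin.ext h.symm)
      simp [this]
    · intro h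
      exact absurd (Finset.mem_univ i) h
  have hP : P ≠ 0 := by
    intro h0
    apply hxy
    funext i
    have := hcoef i
    rw [h0, Polynomial.coeff_zero] at this
    exact (sub_eq_zero.1 this.symm)
  have hdeg : P.natDegree ≤ M := by
    refine Polynomial.natDegree_sum_le_of_forall_le _ _ (fun i _ => ?_)
    refine (Polynomial.natDegree_C_mul_X_pow_le _ _).trans ?_
    have := i.2
    omega
  have heval : ∀ l, Polynomial.eval (t l) P
      = (∑ i : Fin (M + 1), x i * t l ^ (i : ℕ)) - ∑ i : Fin (M + 1), y i * t l ^ (i : ℕ) := by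
    intro l
    simp only [P, Polynomial.eval_finsetSum, Polynomial.eval_mul, Polynomial.eval_C,
      Polynomial.eval_pow, Polynomial.eval_X, sub_mul, Finset.sum_sub_distrib]
  have hle : ((univ.filter (fun l : ι => (∑ i : Fin (M + 1), x i * t l ^ (i : ℕ))
      = ∑ i : Fin (M + 1), y i * t l ^ (i : ℕ))).map t).card ≤ P.roots.toFinset.card := by
    refine Finset.card_le_card ?_
    intro z hz
    simp only [Finset.mem_map, Finset.mem_filter, Finset.mem_univ, true_and] at hz
    obtain ⟨l, hl, rfl⟩ := hz
    rw [Multiset.mem_toFinset, Polynomial.mem_roots hP, Polynomial.IsRoot.def, heval l, hl, sub_self]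
  rw [Finset.card_map] at hle
  exact hle.trans ((Multiset.toFinset_card_le _).trans ((Polynomial.card_roots' P).trans hdeg))

/-- The induction step, combinatorial part. -/
theorem step (r M : ℕ) (ι V F K : Type) [Fintype ι] [DecidableEq ι] [DecidableEq F]
    (R : ι → ι → Prop) (X : Finset ι → ι)
    (hX : ∀ A : Finset ι, A.card ≤ M → ∀ b ∈ A, R b (X A))
    (hR : ∀ (w : ℕ → ι) (n : ℕ), 1 ≤ n → n ≤ r + 1 → (∀ i < n, R (w i) (w (i + 1))) → w 0 ≠ w n)
    (ev : V → ι → F)
    (hev : ∀ x y, x ≠ y → (univ.filter (fun l => ev x l = ev y l)).card ≤ M)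
    (h : Has r F K) : Has (r + 1) V (Finset ι × Sym2 F × (ι → K)) := by
  classical
  obtain ⟨c, hs, hc⟩ := h
  let A : V → V → Finset ι := fun x y => univ.filter (fun l => ev x l = ev y l)
  have hAs : ∀ x y, A x y = A y x := by
    intro x y
    ext l
    simp [A, eq_comm]
  refine ⟨fun x y => (A x y, s(ev x (X (A x y)), ev y (X (A x y))), fun l => c (ev x l) (ev y l)),
    ?_, ?_⟩
  · intro x y
    beta_reduce
    rw [hAs x y]
    refine Prod.ext rfl (Prod.ext ?_ ?_)
    · exact Sym2.eq_swap
    · funext l
      exact hs _ _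
  · intro S hS
    -- only colours with a small agreement set occur
    set S' := S.filter (fun κ => κ.1.card ≤ M) with hS'
    have hS'card : S'.card ≤ r + 1 := (Finset.card_filter_le _ _).trans hS
    have hloop : ∀ B : Finset ι, B.card ≤ M → X B ∉ B := by
      intro B hB hmem
      have := hR (fun _ => X B) 1 le_rfl (by omega) (fun i _ => hX B hB _ hmem)
      exact this rfl
    rcases S'.eq_empty_or_nonempty with hemp | ⟨κ0, hκ0⟩
    · refine ⟨fun _ => 0, fun x y hxy hmem => ?_⟩
      exfalso
      have : (A x y, s(ev x (X (A x y)), ev y (X (A x y))),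
          fun l => c (ev x l) (ev y l)) ∈ S' := by
        rw [hS', Finset.mem_filter]
        exact ⟨hmem, hev x y hxy⟩
      rw [hemp] at this
      exact absurd this (Finset.notMem_empty _)
    -- a class whose exact column is a difference column of all classes
    have hex : ∃ κ ∈ S', ∀ κ' ∈ S', X κ.1 ∉ κ'.1 := by
      by_contra hcon
      push Not at hcon
      have hcon' : ∀ κ : S', ∃ κ' : S', X κ.1.1 ∈ κ'.1.1 := by
        intro κ
        obtain ⟨κ', h1, h2⟩ := hcon κ.1 κ.2
        exact ⟨⟨κ', h1⟩, h2⟩
      choose g hg using hcon'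
      let z : ℕ → S' := fun i => g^[i] ⟨κ0, hκ0⟩
      have hz : ∀ i, z (i + 1) = g (z i) := fun i => Function.iterate_succ_apply' g i _
      have hstep : ∀ i, R (X (z i).1.1) (X (z (i + 1)).1.1) := by
        intro i
        have h1 := hg (z i)
        rw [← hz] at h1
        have h2 : (z (i + 1)).1.1.card ≤ M := (Finset.mem_filter.1 (z (i + 1)).2).2
        exact hX _ h2 _ h1
      -- pigeonhole
      obtain ⟨a, b, hab, hzab⟩ : ∃ a b : Fin (r + 2), a < b ∧ z a = z b := by
        have hcard : Fintype.card S' < Fintype.card (Fin (r + 2)) := by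
          rw [Fintype.card_coe, Fintype.card_fin]
          omega
        obtain ⟨a, b, hne, heq⟩ :=
          Fintype.exists_ne_map_eq_of_card_lt (fun i : Fin (r + 2) => z i) hcard
        rcases lt_or_gt_of_ne hne with hlt | hlt
        · exact ⟨a, b, hlt, heq⟩
        · exact ⟨b, a, hlt, heq.symm⟩
      have hab' : (a : ℕ) < b := hab
      have hb := b.2
      refine hR (fun i => X (z (a + i)).1.1) (b - a) (by omega) (by omega) (fun i _ => ?_) ?_
      · exact hstep (a + i)
      · show X (z (a + 0)).1.1 = X (z (a + (b - a))).1.1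
        have e1 : (a : ℕ) + (b - a) = b := by omega
        rw [e1, add_zero, hzab]
    obtain ⟨κ, hκ, hκall⟩ := hex
    set l := X κ.1 with hl
    obtain ⟨u0, v0, huv⟩ : ∃ u0 v0, κ.2.1 = s(u0, v0) := by
      induction κ.2.1 with
      | h u v => exact ⟨u, v, rfl⟩
    have hT : ((S'.erase κ).image (fun κ' => κ'.2.2 l)).card ≤ r := by
      refine Finset.card_image_le.trans ?_
      rw [Finset.card_erase_of_mem hκ]
      omega
    obtain ⟨f, hf⟩ := hc _ hT
    refine ⟨fun x => if ev x l = u0 then Fin.last (r + 1) else (f (ev x l)).castSucc, ?_⟩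
    intro x y hxy hmem
    have hmem' : (A x y, s(ev x (X (A x y)), ev y (X (A x y))),
        fun l => c (ev x l) (ev y l)) ∈ S' := by
      rw [hS', Finset.mem_filter]
      exact ⟨hmem, hev x y hxy⟩
    have hne : ev x l ≠ ev y l := by
      have := hκall _ hmem'
      simpa [A] using this
    by_cases hx : ev x l = u0
    · have hy : ev y l ≠ u0 := fun h => hne (hx.trans h.symm)
      simp only [hx, hy, if_true, if_false]
      exact (Fin.castSucc_lt_last _).ne'
    · by_cases hy : ev y l = u0
      · simp only [hx, hy, if_true, if_false]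
        exact (Fin.castSucc_lt_last _).ne
      · simp only [hx, hy, if_false]
        intro heq
        have heq' := Fin.castSucc_injective _ heq
        by_cases hk : (A x y, s(ev x (X (A x y)), ev y (X (A x y))),
            fun l => c (ev x l) (ev y l)) = κ
        · have h1 : A x y = κ.1 := by rw [← hk]
          have h2 : s(ev x l, ev y l) = s(u0, v0) := by
            rw [← huv, hl, ← h1, ← hk]
          rw [Sym2.eq_iff] at h2
          rcases h2 with ⟨h2, -⟩ | ⟨-, h2⟩
          · exact hx h2
          · exact hy h2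
        · refine hf _ _ hne ?_ heq'
          rw [Finset.mem_image]
          exact ⟨_, Finset.mem_erase.2 ⟨hk, hmem'⟩, rfl⟩

end Pool.Agent.Lib.MP_f9129e_co
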