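import Mathlib
import Pool.Agent.Lib.MP_f9129e_co.Step

set_option autoImplicit false

namespace Pool.Agent.Lib.MP_f9129e_co

open Finset Filter

/-- Colourings with `n^{o(1)}` colours for which any `r` classes have union of chromatic number
at most `r + 1`. -/
def Asym (r : ℕ) : Prop :=
  ∀ ε : ℝ, 0 < ε → ∀ᶠ n : ℕ in atTop, ∃ k : ℕ, (k : ℝ) ≤ (n : ℝ) ^ ε ∧ Has r (Fin n) (Fin k)

theorem asym_zero : Asym 0 := by
  intro ε hε
  filter_upwards [eventually_ge_atTop 1] with n hn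
  refine ⟨1, ?_, fun _ _ => 0, fun _ _ => rfl, fun S hS => ⟨fun _ => 0, fun x y _ hmem => ?_⟩⟩
  · have : (1 : ℝ) ≤ (n : ℝ) := by exact_mod_cast hn
    simpa using Real.one_le_rpow this hε.le
  · have : S = ∅ := Finset.card_eq_zero.1 (Nat.le_zero.1 hS)
    rw [this] at hmem
    exact absurd hmem (Finset.notMem_empty _)

theorem asym_succ (r : ℕ) (ih : Asym r) : Asym (r + 1) := by
  classical
  intro ε hε
  set M : ℕ := ⌈3 / ε⌉₊ with hM
  have hM1 : (3 : ℝ) / ((M : ℝ) + 1) < ε := by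
    have h1 : 3 / ε ≤ (M : ℝ) := Nat.le_ceil _
    have h2 : (0 : ℝ) < (M : ℝ) + 1 := by positivity
    rw [div_lt_iff₀ h2]
    rw [div_le_iff₀ hε] at h1
    nlinarith
  obtain ⟨ι, i1, i2, R, X, hX, hR⟩ := exists_digraph M (r + 1)
  set q : ℕ := Fintype.card ι with hq
  have hε' : (0 : ℝ) < 1 / ((q : ℝ) + 1) := by positivity
  obtain ⟨m0, hm0⟩ := eventually_atTop.1 (ih _ hε')
  have hpow : (0 : ℝ) < 1 / ((M : ℝ) + 1) := by positivity
  have hexp : 0 < ε - 3 / ((M : ℝ) + 1) := sub_pos.2 hM1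
  have ev1 : ∀ᶠ n : ℕ in atTop, (2 : ℝ) ^ q * 64 ≤ (n : ℝ) ^ (ε - 3 / ((M : ℝ) + 1)) :=
    ((tendsto_rpow_atTop hexp).comp tendsto_natCast_atTop_atTop).eventually_ge_atTop _
  have ev2 : ∀ᶠ n : ℕ in atTop, ((max m0 (q + 1) : ℕ) : ℝ) ≤ (n : ℝ) ^ (1 / ((M : ℝ) + 1)) :=
    ((tendsto_rpow_atTop hpow).comp tendsto_natCast_atTop_atTop).eventually_ge_atTop _
  filter_upwards [ev1, ev2, eventually_ge_atTop 1] with n h1 h2 hn
  have hn1 : (1 : ℝ) ≤ (n : ℝ) := by exact_mod_cast hn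
  have hn0 : (0 : ℝ) < (n : ℝ) := by linarith
  set a : ℝ := (n : ℝ) ^ (1 / ((M : ℝ) + 1)) with ha
  have ha1 : 1 ≤ a := Real.one_le_rpow hn1 hpow.le
  set N : ℕ := ⌈a⌉₊ with hN
  have hNge : a ≤ N := Nat.le_ceil _
  have hNlt : (N : ℝ) < a + 1 := Nat.ceil_lt_add_one (by linarith)
  have hN0 : N ≠ 0 := by
    intro h
    rw [h] at hNge
    simp at hNge
    linarith
  obtain ⟨p, hp, hNp, hp2⟩ := Nat.exists_prime_lt_and_le_two_mul N hN0
  have : Fact p.Prime := ⟨hp⟩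
  have hmax : max m0 (q + 1) ≤ N := by
    have : ((max m0 (q + 1) : ℕ) : ℝ) ≤ N := h2.trans hNge
    exact_mod_cast this
  have hm0p : m0 ≤ p := ((le_max_left _ _).trans hmax).trans hNp.le
  have hqp : q ≤ p := ((Nat.le_succ q).trans ((le_max_right _ _).trans hmax)).trans hNp.le
  obtain ⟨k', hk', hhas⟩ := hm0 p hm0p
  -- the colouring on `ZMod p`
  have hhas' : Has r (ZMod p) (Fin k') := by
    refine hhas.mono ?_ (Function.Embedding.refl _)
    exact (Fintype.equivFinOfCardEq (ZMod.card p)).toEmbedding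
  obtain ⟨ev, hev⟩ := exists_code M ι p hqp
  have hstep := step r M ι (Fin (M + 1) → ZMod p) (ZMod p) (Fin k') R X hX hR ev hev hhas'
  set k : ℕ := Fintype.card (Finset ι × Sym2 (ZMod p) × (ι → Fin k')) with hk
  have hnV : n ≤ p ^ (M + 1) := by
    have e1 : (n : ℝ) = a ^ (M + 1) := by
      rw [ha, ← Real.rpow_natCast, ← Real.rpow_mul hn0.le]
      have : 1 / ((M : ℝ) + 1) * ((M + 1 : ℕ) : ℝ) = 1 := by
        push_cast
        field_simp
      rw [this, Real.rpow_one]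
    have e2 : a ≤ (p : ℝ) := hNge.trans (by exact_mod_cast hNp.le)
    have e3 : (n : ℝ) ≤ (p : ℝ) ^ (M + 1) := by
      rw [e1]
      exact pow_le_pow_left₀ (by linarith) e2 _
    exact_mod_cast e3
  refine ⟨k, ?_, ?_⟩
  · -- counting colours
    have hcard : k = 2 ^ q * (Fintype.card (Sym2 (ZMod p)) * k' ^ q) := by
      rw [hk, Fintype.card_prod, Fintype.card_prod, Fintype.card_finset, Fintype.card_fun,
        Fintype.card_fin]
    have hsym : Fintype.card (Sym2 (ZMod p)) ≤ p ^ 2 := by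
      have := Fintype.card_le_of_surjective (fun z : ZMod p × ZMod p => s(z.1, z.2))
        (fun z => by
          induction z with
          | h u v => exact ⟨(u, v), rfl⟩)
      rw [Fintype.card_prod, ZMod.card] at this
      rw [sq]
      exact this
    have hp0 : (0 : ℝ) < (p : ℝ) := by exact_mod_cast hp.pos
    have hp1 : (1 : ℝ) ≤ (p : ℝ) := by exact_mod_cast hp.one_lt.le
    have hk'q : ((k' : ℝ)) ^ q ≤ (p : ℝ) := by
      calc ((k' : ℝ)) ^ q ≤ ((p : ℝ) ^ (1 / ((q : ℝ) + 1))) ^ q :=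
            pow_le_pow_left₀ (by positivity) hk' _
        _ = (p : ℝ) ^ (1 / ((q : ℝ) + 1) * (q : ℝ)) := by
            rw [← Real.rpow_natCast, ← Real.rpow_mul hp0.le]
        _ ≤ (p : ℝ) ^ (1 : ℝ) := by
            refine Real.rpow_le_rpow_of_exponent_le hp1 ?_
            rw [one_div, inv_mul_le_iff₀ (by positivity)]
            linarith
        _ = p := Real.rpow_one _
    have hpa : (p : ℝ) ≤ 4 * a := by
      have : (p : ℝ) ≤ 2 * N := by exact_mod_cast hp2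
      linarith
    have hkR : (k : ℝ) ≤ 2 ^ q * (p : ℝ) ^ 3 := by
      rw [hcard]
      push_cast
      have hs' : (Fintype.card (Sym2 (ZMod p)) : ℝ) ≤ (p : ℝ) ^ 2 := by exact_mod_cast hsym
      calc (2 : ℝ) ^ q * ((Fintype.card (Sym2 (ZMod p)) : ℝ) * (k' : ℝ) ^ q)
          ≤ 2 ^ q * ((p : ℝ) ^ 2 * p) := by
            refine mul_le_mul_of_nonneg_left ?_ (by positivity)
            exact mul_le_mul hs' hk'q (by positivity) (by positivity)
        _ = 2 ^ q * (p : ℝ) ^ 3 := by ring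
    have hp3 : (p : ℝ) ^ 3 ≤ 64 * a ^ 3 := by
      calc (p : ℝ) ^ 3 ≤ (4 * a) ^ 3 := pow_le_pow_left₀ hp0.le hpa _
        _ = 64 * a ^ 3 := by ring
    have ha3 : a ^ 3 = (n : ℝ) ^ (3 / ((M : ℝ) + 1)) := by
      rw [ha, ← Real.rpow_natCast, ← Real.rpow_mul hn0.le]
      congr 1
      push_cast
      ring
    calc (k : ℝ) ≤ 2 ^ q * (p : ℝ) ^ 3 := hkR
      _ ≤ 2 ^ q * (64 * a ^ 3) := mul_le_mul_of_nonneg_left hp3 (by positivity)
      _ = (2 ^ q * 64) * (n : ℝ) ^ (3 / ((M : ℝ) + 1)) := by rw [ha3]; ring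
      _ ≤ (n : ℝ) ^ (ε - 3 / ((M : ℝ) + 1)) * (n : ℝ) ^ (3 / ((M : ℝ) + 1)) :=
          mul_le_mul_of_nonneg_right h1 (by positivity)
      _ = (n : ℝ) ^ ε := by
          rw [← Real.rpow_add hn0]
          congr 1
          ring
  · have hemb : Nonempty (Fin n ↪ (Fin (M + 1) → ZMod p)) := by
      rw [Function.Embedding.nonempty_iff_card_le, Fintype.card_fin, Fintype.card_fun, ZMod.card,
        Fintype.card_fin]
      exact hnV
    obtain ⟨e⟩ := hemb
    exact hstep.mono e (Fintype.equivFin _).toEmbedding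

theorem asym (r : ℕ) : Asym r := by
  induction r with
  | zero => exact asym_zero
  | succ r ih => exact asym_succ r ih

/-- For every `r` there are colourings of all `K_n` with `n^{o(1)}` colours. -/
theorem exists_colouring (r : ℕ) :
    ∃ k : ℕ → ℕ,
      (∀ ε : ℝ, 0 < ε → ∀ᶠ n : ℕ in atTop, (k n : ℝ) ≤ (n : ℝ) ^ ε) ∧
      ∀ n : ℕ, Has r (Fin n) (Fin (k n)) := by
  classical
  have hne : ∀ n : ℕ, ∃ k : ℕ, Has r (Fin n) (Fin k) := by
    intro n
    obtain ⟨N, hN⟩ := eventually_atTop.1 (asym r 1 one_pos)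
    obtain ⟨k, -, hk⟩ := hN (max n N) (le_max_right _ _)
    exact ⟨k, hk.mono (Fin.castLEEmb (le_max_left _ _)) (Function.Embedding.refl _)⟩
  refine ⟨fun n => Nat.find (hne n), ?_, fun n => Nat.find_spec (hne n)⟩
  intro ε hε
  filter_upwards [asym r ε hε] with n hn
  obtain ⟨k, hk1, hk2⟩ := hn
  refine le_trans ?_ hk1
  exact_mod_cast Nat.find_min' (hne n) hk2

end Pool.Agent.Lib.MP_f9129e_co
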